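import Mathlib

/-! Definitions for `MP_3c459d_an` and `MP_32da07_an`: the Kobayashi distance of a domain in `ℂⁿ`,
Reinhardt domains and pseudoconvexity. -/

open Complex Metric Set Filter Topology

namespace Pool.Agent.Q7.KR

/-- `ℂⁿ` with the Euclidean norm. -/
abbrev Cn (n : ℕ) := EuclideanSpace ℂ (Fin n)

/-- The Poincaré distance of the unit disc,
`p(a, b) = (1/2) log ((1 + |T|) / (1 - |T|))` with `T = (a - b) / (1 - ā b)`. -/
noncomputable def poincare (a b : ℂ) : ℝ :=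
  1 / 2 * Real.log ((1 + ‖(a - b) / (1 - (starRingEnd ℂ) a * b)‖) /
    (1 - ‖(a - b) / (1 - (starRingEnd ℂ) a * b)‖))

/-- `Chain D z w s`: there is a finite chain of holomorphic discs `f_j : 𝔻 → D` and points
`a_j, b_j ∈ 𝔻` with `f_1 a_1 = z`, `f_j b_j = f_{j+1} a_{j+1}`, `f_N b_N = w` and
`∑ p(a_j, b_j) = s`. -/
inductive Chain {n : ℕ} (D : Set (Cn n)) : Cn n → Cn n → ℝ → Prop
  | refl (z : Cn n) (hz : z ∈ D) : Chain D z z 0
  | step (f : ℂ → Cn n) (a b : ℂ) (w : Cn n) (s : ℝ) (hf : DifferentiableOn ℂ f (ball 0 1))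
      (hD : MapsTo f (ball 0 1) D) (ha : a ∈ ball (0 : ℂ) 1) (hb : b ∈ ball (0 : ℂ) 1)
      (h : Chain D (f b) w s) : Chain D (f a) w (poincare a b + s)

/-- The Kobayashi (pseudo)distance `k_D(z, w)`: the infimum of the chain sums. -/
noncomputable def kobayashi {n : ℕ} (D : Set (Cn n)) (z w : Cn n) : ℝ := sInf {s | Chain D z w s}

/-- `D` is a Reinhardt domain: open, connected and invariant under
`(z_j) ↦ (e^{i θ_j} z_j)`. -/
def IsReinhardtDomain {n : ℕ} (D : Set (Cn n)) : Prop :=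
  IsOpen D ∧ IsConnected D ∧ ∀ z ∈ D, ∀ θ : Fin n → ℝ,
    (WithLp.toLp 2 fun j => Complex.exp (θ j * I) * z j : Cn n) ∈ D

/-- `u` is continuous and plurisubharmonic on `D`: its value at the centre of a closed disc
contained in `D` is at most the mean over the boundary circle. -/
def IsContPsh {n : ℕ} (D : Set (Cn n)) (u : Cn n → ℝ) : Prop :=
  ContinuousOn u D ∧ ∀ z w : Cn n, (∀ l : ℂ, ‖l‖ ≤ 1 → z + l • w ∈ D) →
    u z ≤ Real.circleAverage (fun l : ℂ => u (z + l • w)) 0 1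

/-- `D` is pseudoconvex: it has a continuous plurisubharmonic exhaustion function. -/
def IsPseudoconvex {n : ℕ} (D : Set (Cn n)) : Prop :=
  ∃ u : Cn n → ℝ, IsContPsh D u ∧ ∀ c : ℝ, IsCompact {z | z ∈ D ∧ u z ≤ c}

/-- `D` is holomorphically convex: the hulls of the compact subsets of `D` with respect to the
holomorphic functions on `D` are compact. -/
def IsHolConvex {n : ℕ} (D : Set (Cn n)) : Prop :=
  ∀ K ⊆ D, IsCompact K → IsCompact {z | z ∈ D ∧ ∀ f : Cn n → ℂ, DifferentiableOn ℂ f D →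
    ∀ M : ℝ, (∀ w ∈ K, ‖f w‖ ≤ M) → ‖f z‖ ≤ M}

end Pool.Agent.Q7.KR
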