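import Pool.Agent.Q7.KR.Defs

/-! The domain `|z₁| < 3`, `|z₂| < 16`, `|z₃| < 1`, `|z₁ z₂^(2k²) z₃^(k³)| < e^k` (`k ≥ 1`). -/

open Complex Metric Set Filter Topology

namespace Pool.Agent.Q7.KR

/-- The monomials defining the domain. -/
noncomputable def g : ℕ → Cn 3 → ℂ
  | 0, z => (1 / 3 : ℂ) * z 0
  | 1, z => (1 / 16 : ℂ) * z 1
  | 2, z => z 2
  | (k + 3), z => (Real.exp (-((k : ℝ) + 1)) : ℂ) * z 0 * z 1 ^ (2 * (k + 1) ^ 2) * z 2 ^ ((k + 1) ^ 3)

/-- The domain. -/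
def Dom : Set (Cn 3) := {z | ∀ k, ‖g k z‖ < 1}

lemma cont_g (k : ℕ) : Continuous (g k) := by
  rcases k with _ | _ | _ | k <;> unfold g <;> fun_prop

lemma diff_g (k : ℕ) (z w : Cn 3) : Differentiable ℂ fun l : ℂ => g k (z + l • w) := by
  rcases k with _ | _ | _ | k <;> simp only [g, PiLp.add_apply, PiLp.smul_apply, smul_eq_mul] <;>
    fun_prop

lemma diff_g' (k : ℕ) : Differentiable ℂ (g k) := by
  have h : ∀ i : Fin 3, Differentiable ℂ (fun z : Cn 3 => z i) := fun i =>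
    (EuclideanSpace.proj i : Cn 3 →L[ℂ] ℂ).differentiable
  have h0 := h 0
  have h1 := h 1
  have h2 := h 2
  rcases k with _ | _ | _ | k <;> unfold g
  · exact h0.const_mul _
  · exact h1.const_mul _
  · exact h2
  · exact ((h0.const_mul _).mul (h1.pow _)).mul (h2.pow _)

lemma norm_g_succ (k : ℕ) (z : Cn 3) : ‖g (k + 3) z‖ =
    Real.exp (-((k : ℝ) + 1)) * ‖z 0‖ * ‖z 1‖ ^ (2 * (k + 1) ^ 2) * ‖z 2‖ ^ ((k + 1) ^ 3) := by
  rw [g, norm_mul, norm_mul, norm_mul, norm_pow, norm_pow, Complex.norm_real, Real.norm_eq_abs,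
    abs_of_pos (Real.exp_pos _)]

lemma norm_g_mono {z w : Cn 3} (h : ∀ i, ‖w i‖ ≤ ‖z i‖) (k : ℕ) : ‖g k w‖ ≤ ‖g k z‖ := by
  rcases k with _ | _ | _ | k
  · simp only [g, norm_mul]; exact mul_le_mul_of_nonneg_left (h 0) (norm_nonneg _)
  · simp only [g, norm_mul]; exact mul_le_mul_of_nonneg_left (h 1) (norm_nonneg _)
  · exact h 2
  · rw [norm_g_succ, norm_g_succ]
    have h0 := h 0
    have h1 := h 1
    have h2 := h 2
    gcongr

lemma dom_mono {z w : Cn 3} (h : ∀ i, ‖w i‖ ≤ ‖z i‖) (hz : z ∈ Dom) : w ∈ Dom :=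
  fun k => (norm_g_mono h k).trans_lt (hz k)

lemma dom_bounds {z : Cn 3} (hz : z ∈ Dom) : ‖z 0‖ < 3 ∧ ‖z 1‖ < 16 ∧ ‖z 2‖ < 1 := by
  have h0 := hz 0
  have h1 := hz 1
  have h2 := hz 2
  simp only [g, norm_mul] at h0 h1 h2
  norm_num at h0 h1
  exact ⟨by linarith, by linarith, h2⟩

lemma tail {z : Cn 3} (h0 : ‖z 0‖ < 3) (h1 : ‖z 1‖ < 16) (h2 : ‖z 2‖ < 1) {c : ℝ} (hc : 0 < c) :
    ∃ N : ℕ, ∀ᶠ w in 𝓝 z, ∀ k ≥ N, ‖g k w‖ ≤ c := by
  obtain ⟨θ, hθ1, hθ2⟩ := exists_between h2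
  have hθ0 : 0 < θ := (norm_nonneg _).trans_lt hθ1
  have t1 : ∀ᶠ k : ℕ in atTop, (256 : ℝ) * θ ^ k ≤ 1 := by
    have := (tendsto_pow_atTop_nhds_zero_of_lt_one hθ0.le hθ2).const_mul (256 : ℝ)
    rw [mul_zero] at this
    exact this.eventually (ge_mem_nhds one_pos)
  have t2 : ∀ᶠ k : ℕ in atTop, (3 : ℝ) * Real.exp (-(k : ℝ)) ≤ c := by
    have : Tendsto (fun k : ℕ => (3 : ℝ) * Real.exp (-(k : ℝ))) atTop (𝓝 (3 * 0)) :=
      (Real.tendsto_exp_neg_atTop_nhds_zero.comp tendsto_natCast_atTop_atTop).const_mul 3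
    rw [mul_zero] at this
    exact this.eventually (ge_mem_nhds hc)
  obtain ⟨N, hN⟩ := eventually_atTop.1 (t1.and t2)
  refine ⟨N + 3, ?_⟩
  have c0 : Continuous fun w : Cn 3 => ‖w 0‖ := by fun_prop
  have c1 : Continuous fun w : Cn 3 => ‖w 1‖ := by fun_prop
  have c2 : Continuous fun w : Cn 3 => ‖w 2‖ := by fun_prop
  filter_upwards [c0.continuousAt.eventually (gt_mem_nhds h0),
    c1.continuousAt.eventually (gt_mem_nhds h1),
    c2.continuousAt.eventually (gt_mem_nhds hθ1)] with w w0 w1 w2 k hk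
  obtain ⟨j, rfl⟩ : ∃ j, k = j + 3 := ⟨k - 3, by omega⟩
  have hj := hN (j + 1) (by omega)
  rw [norm_g_succ]
  have e1 : ‖w 1‖ ^ (2 * (j + 1) ^ 2) * ‖w 2‖ ^ ((j + 1) ^ 3)
      = (‖w 1‖ ^ 2 * ‖w 2‖ ^ (j + 1)) ^ ((j + 1) ^ 2) := by
    rw [mul_pow, ← pow_mul, ← pow_mul]; ring_nf
  have e2 : ‖w 1‖ ^ 2 * ‖w 2‖ ^ (j + 1) ≤ 1 := by
    have a1 : ‖w 1‖ ^ 2 ≤ 256 := by nlinarith [norm_nonneg (w 1)]
    have a2 : ‖w 2‖ ^ (j + 1) ≤ θ ^ (j + 1) := pow_le_pow_left₀ (norm_nonneg _) w2.le _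
    calc ‖w 1‖ ^ 2 * ‖w 2‖ ^ (j + 1) ≤ 256 * θ ^ (j + 1) :=
          mul_le_mul a1 a2 (by positivity) (by norm_num)
      _ ≤ 1 := hj.1
  have e3 : (‖w 1‖ ^ 2 * ‖w 2‖ ^ (j + 1)) ^ ((j + 1) ^ 2) ≤ 1 :=
    pow_le_one₀ (by positivity) e2
  rw [mul_assoc, e1]
  have e4 : Real.exp (-((j : ℝ) + 1)) * ‖w 0‖ ≤ c := by
    have := hj.2
    push_cast at this
    have := mul_le_mul_of_nonneg_left w0.le (Real.exp_pos (-((j : ℝ) + 1))).le
    linarith
  calc Real.exp (-((j : ℝ) + 1)) * ‖w 0‖ * (‖w 1‖ ^ 2 * ‖w 2‖ ^ (j + 1)) ^ ((j + 1) ^ 2)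
      ≤ Real.exp (-((j : ℝ) + 1)) * ‖w 0‖ * 1 := by
        apply mul_le_mul_of_nonneg_left e3 (by positivity)
    _ ≤ c := by rw [mul_one]; exact e4

lemma near {z : Cn 3} (h0 : ‖z 0‖ < 3) (h1 : ‖z 1‖ < 16) (h2 : ‖z 2‖ < 1) {c : ℝ} (hc : 0 < c)
    (h : ∀ k, ‖g k z‖ < c) : ∀ᶠ w in 𝓝 z, ∀ k, ‖g k w‖ < c := by
  obtain ⟨N, hN⟩ := tail h0 h1 h2 (half_pos hc)
  have h3 : ∀ᶠ w in 𝓝 z, ∀ k ∈ Finset.range N, ‖g k w‖ < c := by
    rw [Filter.eventually_all_finset]
    intro k _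
    exact (cont_g k).norm.continuousAt.eventually (gt_mem_nhds (h k))
  filter_upwards [hN, h3] with w hw1 hw2 k
  by_cases hk : k < N
  · exact hw2 k (Finset.mem_range.2 hk)
  · exact (hw1 k (not_lt.1 hk)).trans_lt (half_lt_self hc)

lemma isOpen_dom : IsOpen Dom := by
  rw [isOpen_iff_mem_nhds]
  intro z hz
  obtain ⟨h0, h1, h2⟩ := dom_bounds hz
  exact near h0 h1 h2 one_pos hz

lemma zero_mem : (0 : Cn 3) ∈ Dom := by
  intro k
  rcases k with _ | _ | _ | k <;> simp [g]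

lemma isConnected_dom : IsConnected Dom := by
  have h : StarConvex ℝ (0 : Cn 3) Dom := by
    intro z hz a b ha hb hab
    rw [smul_zero, zero_add]
    refine dom_mono (fun i => ?_) hz
    rw [PiLp.smul_apply, norm_smul, Real.norm_eq_abs, abs_of_nonneg hb]
    nlinarith [norm_nonneg (z i)]
  exact (h.isPathConnected zero_mem).isConnected

lemma reinhardt_dom : IsReinhardtDomain Dom := by
  refine ⟨isOpen_dom, isConnected_dom, fun z hz θ => dom_mono (fun i => ?_) hz⟩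
  simp only [norm_mul, Complex.norm_exp_ofReal_mul_I, one_mul, le_refl]

lemma norm_le_of {z : Cn 3} (h0 : ‖z 0‖ ≤ 3) (h1 : ‖z 1‖ ≤ 16) (h2 : ‖z 2‖ ≤ 1) : ‖z‖ ≤ 20 := by
  apply le_of_sq_le_sq _ (by norm_num)
  rw [EuclideanSpace.norm_sq_eq, Fin.sum_univ_three]
  nlinarith [norm_nonneg (z 0), norm_nonneg (z 1), norm_nonneg (z 2)]

lemma isBounded_dom : Bornology.IsBounded Dom := by
  refine (isBounded_iff_forall_norm_le).2 ⟨20, fun z hz => ?_⟩
  obtain ⟨h0, h1, h2⟩ := dom_bounds hz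
  exact norm_le_of h0.le h1.le h2.le

/-! ### The exhaustion function -/

/-- `S = sup |g_k|`. -/
noncomputable def S (z : Cn 3) : ℝ := ⨆ k, ‖g k z‖

lemma bdd {z : Cn 3} (hz : z ∈ Dom) : BddAbove (range fun k => ‖g k z‖) :=
  ⟨1, by rintro _ ⟨k, rfl⟩; exact (hz k).le⟩

lemma le_S {z : Cn 3} (hz : z ∈ Dom) (k : ℕ) : ‖g k z‖ ≤ S z := le_ciSup (bdd hz) k

lemma S_nonneg {z : Cn 3} (hz : z ∈ Dom) : 0 ≤ S z := (norm_nonneg _).trans (le_S hz 0)

lemma S_lt {z : Cn 3} (hz : z ∈ Dom) : S z < 1 := by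
  obtain ⟨h0, h1, h2⟩ := dom_bounds hz
  obtain ⟨N, hN⟩ := tail h0 h1 h2 (half_pos one_pos)
  have hN' := hN.self_of_nhds
  have h3 : ∃ c : ℝ, c < 1 ∧ 1 / 2 ≤ c ∧ ∀ k ∈ Finset.range N, ‖g k z‖ ≤ c := by
    clear hN hN'
    induction N with
    | zero => exact ⟨1 / 2, by norm_num, le_rfl, by simp⟩
    | succ N ih =>
      obtain ⟨c, hc1, hc2, hc3⟩ := ih
      refine ⟨max c ‖g N z‖, max_lt hc1 (hz N), le_max_of_le_left hc2, fun k hk => ?_⟩
      rcases Finset.mem_range_succ_iff.1 hk |>.lt_or_eq with h | h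
      · exact le_max_of_le_left (hc3 k (Finset.mem_range.2 h))
      · rw [h]; exact le_max_right _ _
  obtain ⟨c, hc1, hc2, hc3⟩ := h3
  refine (ciSup_le fun k => ?_).trans_lt hc1
  by_cases hk : k < N
  · exact hc3 k (Finset.mem_range.2 hk)
  · exact (hN' k (not_lt.1 hk)).trans hc2

lemma continuousOn_S : ContinuousOn S Dom := by
  intro z hz
  apply ContinuousAt.continuousWithinAt
  obtain ⟨h0, h1, h2⟩ := dom_bounds hz
  rw [ContinuousAt, tendsto_order]
  constructor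
  · intro a ha
    obtain ⟨k, hk⟩ := exists_lt_of_lt_ciSup ha
    filter_upwards [(cont_g k).norm.continuousAt.eventually (lt_mem_nhds hk),
      isOpen_dom.mem_nhds hz] with w hw1 hw2
    exact hw1.trans_le (le_S hw2 k)
  · intro a ha
    obtain ⟨b, hb1, hb2⟩ := exists_between ha
    have hb0 : 0 < b := (S_nonneg hz).trans_lt hb1
    filter_upwards [near h0 h1 h2 hb0 fun k => (le_S hz k).trans_lt hb1] with w hw
    exact (ciSup_le fun k => (hw k).le).trans_lt hb2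

/-- The compact sets `{S ≤ c}`. -/
lemma isCompact_S {c : ℝ} (hc : c < 1) : IsCompact {z : Cn 3 | ∀ k, ‖g k z‖ ≤ c} := by
  apply Metric.isCompact_of_isClosed_isBounded
  · rw [Set.ofPred_forall]
    exact isClosed_iInter fun k => isClosed_le (cont_g k).norm continuous_const
  · refine isBounded_dom.subset fun z hz k => (hz k).trans_lt hc

lemma setOf_S_le {c : ℝ} (hc : c < 1) :
    {z : Cn 3 | z ∈ Dom ∧ S z ≤ c} = {z : Cn 3 | ∀ k, ‖g k z‖ ≤ c} := by
  ext z
  constructor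
  · rintro ⟨hz, h⟩ k; exact (le_S hz k).trans h
  · intro h; exact ⟨fun k => (h k).trans_lt hc, ciSup_le h⟩

lemma convex_ineq {a t : ℝ} (ha : a < 1) (ht : t < 1) :
    1 / (1 - a) + (t - a) / (1 - a) ^ 2 ≤ 1 / (1 - t) := by
  have h1 : 0 < 1 - a := by linarith
  have h2 : 0 < 1 - t := by linarith
  have h3 : 1 / (1 - t) - (1 / (1 - a) + (t - a) / (1 - a) ^ 2)
      = (t - a) ^ 2 / ((1 - t) * (1 - a) ^ 2) := by
    field_simp; ring
  have h4 : 0 ≤ (t - a) ^ 2 / ((1 - t) * (1 - a) ^ 2) := by positivity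
  linarith

lemma norm_le_circleAverage {F : ℂ → ℂ} (hF : Differentiable ℂ F) :
    ‖F 0‖ ≤ Real.circleAverage (fun l => ‖F l‖) 0 1 := by
  have h1 : Real.circleAverage F 0 1 = F 0 := by
    apply DiffContOnCl.circleAverage
    exact hF.diffContOnCl
  rw [← h1, Real.circleAverage_def, Real.circleAverage_def, norm_smul, smul_eq_mul]
  have h2 : ‖((2 * Real.pi)⁻¹ : ℝ)‖ = (2 * Real.pi)⁻¹ := by
    rw [Real.norm_eq_abs, abs_of_pos (by positivity)]
  rw [h2]
  apply mul_le_mul_of_nonneg_left _ (by positivity)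
  exact intervalIntegral.norm_integral_le_integral_norm Real.two_pi_pos.le

lemma psh_dom : IsContPsh Dom fun z => 1 / (1 - S z) := by
  constructor
  · refine continuousOn_const.div (continuousOn_const.sub continuousOn_S) fun z hz => ?_
    have := S_lt hz
    linarith
  · intro z w h
    have hz : z ∈ Dom := by simpa using h 0 (by simp)
    have hmap : ContinuousOn (fun l : ℂ => z + l • w) (closedBall 0 1) :=
      (continuous_const.add (continuous_id.smul continuous_const)).continuousOn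
    have hmaps : MapsTo (fun l : ℂ => z + l • w) (closedBall 0 1) Dom := fun l hl =>
      h l (by simpa using hl)
    have cS : ContinuousOn (fun l : ℂ => S (z + l • w)) (closedBall 0 1) :=
      continuousOn_S.comp hmap hmaps
    have hsph : sphere (0 : ℂ) |1| ⊆ closedBall 0 1 := by
      rw [abs_one]; exact sphere_subset_closedBall
    have iS : CircleIntegrable (fun l : ℂ => S (z + l • w)) 0 1 :=
      ContinuousOn.circleIntegrable' (cS.mono hsph)
    have cu : ContinuousOn (fun l : ℂ => 1 / (1 - S (z + l • w))) (closedBall 0 1) := by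
      refine continuousOn_const.div (continuousOn_const.sub cS) fun l hl => ?_
      have := S_lt (hmaps hl)
      linarith
    have iu : CircleIntegrable (fun l : ℂ => 1 / (1 - S (z + l • w))) 0 1 :=
      ContinuousOn.circleIntegrable' (cu.mono hsph)
    have h1 : S z ≤ Real.circleAverage (fun l : ℂ => S (z + l • w)) 0 1 := by
      refine ciSup_le fun k => ?_
      have h2 := norm_le_circleAverage (diff_g k z w)
      simp only [zero_smul, add_zero] at h2
      refine h2.trans (Real.circleAverage_mono ?_ iS fun l hl => ?_)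
      · exact ContinuousOn.circleIntegrable' (diff_g k z w).continuous.norm.continuousOn
      · exact le_S (hmaps (hsph hl)) k
    set a := S z with ha
    have ha1 : a < 1 := S_lt hz
    have iL : CircleIntegrable (fun l : ℂ => (1 / (1 - a) - a / (1 - a) ^ 2)
        + (1 / (1 - a) ^ 2) * S (z + l • w)) 0 1 := by
      apply ContinuousOn.circleIntegrable'
      exact (continuousOn_const.add (continuousOn_const.mul cS)).mono hsph
    have h3 : Real.circleAverage (fun l : ℂ => (1 / (1 - a) - a / (1 - a) ^ 2)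
        + (1 / (1 - a) ^ 2) * S (z + l • w)) 0 1
        ≤ Real.circleAverage (fun l : ℂ => 1 / (1 - S (z + l • w))) 0 1 := by
      refine Real.circleAverage_mono iL iu fun l hl => ?_
      have := convex_ineq ha1 (S_lt (hmaps (hsph hl)))
      refine le_trans (le_of_eq ?_) this
      ring
    have h4 : Real.circleAverage (fun l : ℂ => (1 / (1 - a) - a / (1 - a) ^ 2)
        + (1 / (1 - a) ^ 2) * S (z + l • w)) 0 1
        = (1 / (1 - a) - a / (1 - a) ^ 2)
        + (1 / (1 - a) ^ 2) * Real.circleAverage (fun l : ℂ => S (z + l • w)) 0 1 := by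
      have i1 : CircleIntegrable (fun _ : ℂ => (1 / (1 - a) - a / (1 - a) ^ 2)) 0 1 :=
        ContinuousOn.circleIntegrable' continuousOn_const
      have i2 : CircleIntegrable (fun l : ℂ => (1 / (1 - a) ^ 2) * S (z + l • w)) 0 1 :=
        ContinuousOn.circleIntegrable' ((continuousOn_const.mul cS).mono hsph)
      rw [Real.circleAverage_fun_add i1 i2, Real.circleAverage_const]
      congr 1
      have := Real.circleAverage_fun_smul (c := (0 : ℂ)) (R := 1) (a := (1 / (1 - a) ^ 2 : ℝ))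
        (f := fun l : ℂ => S (z + l • w))
      simpa only [smul_eq_mul] using this
    have h5 : 0 < 1 / (1 - a) ^ 2 := by
      have : 0 < 1 - a := by linarith
      positivity
    have h6 : 1 / (1 - a) = (1 / (1 - a) - a / (1 - a) ^ 2) + (1 / (1 - a) ^ 2) * a := by ring
    show 1 / (1 - a) ≤ _
    rw [h4] at h3
    have := mul_le_mul_of_nonneg_left h1 h5.le
    linarith

lemma pseudoconvex_dom : IsPseudoconvex Dom := by
  refine ⟨_, psh_dom, fun c => ?_⟩
  by_cases hc : 0 < c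
  · have h : {z : Cn 3 | z ∈ Dom ∧ 1 / (1 - S z) ≤ c} = {z : Cn 3 | z ∈ Dom ∧ S z ≤ 1 - 1 / c} := by
      ext z
      simp only [Set.mem_ofPred_eq]
      refine and_congr_right fun hz => ?_
      have h1 : 0 < 1 - S z := by linarith [S_lt hz]
      rw [div_le_iff₀ h1]
      constructor
      · intro h
        have : 1 / c ≤ 1 - S z := by rw [div_le_iff₀ hc]; linarith
        linarith
      · intro h
        have : 1 / c ≤ 1 - S z := by linarith
        rw [div_le_iff₀ hc] at this; linarith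
    rw [h, setOf_S_le (by have := div_pos one_pos hc; linarith)]
    exact isCompact_S (by have := div_pos one_pos hc; linarith)
  · have h : {z : Cn 3 | z ∈ Dom ∧ 1 / (1 - S z) ≤ c} = ∅ := by
      rw [eq_empty_iff_forall_notMem]
      rintro z ⟨hz, h⟩
      have h1 : 0 < 1 - S z := by linarith [S_lt hz]
      have h2 : 0 < 1 / (1 - S z) := by positivity
      linarith
    rw [h]; exact isCompact_empty

lemma holConvex_dom : IsHolConvex Dom := by
  intro K hK hKc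
  rcases K.eq_empty_or_nonempty with rfl | hne
  · have h : {z : Cn 3 | z ∈ Dom ∧ ∀ f : Cn 3 → ℂ, DifferentiableOn ℂ f Dom →
        ∀ M : ℝ, (∀ w ∈ (∅ : Set (Cn 3)), ‖f w‖ ≤ M) → ‖f z‖ ≤ M} = ∅ := by
      rw [eq_empty_iff_forall_notMem]
      rintro z ⟨_, h⟩
      have := h (fun _ => 0) (differentiableOn_const _) (-1) (by simp)
      simp at this
      linarith
    rw [h]; exact isCompact_empty
  · obtain ⟨x, hx, hmax⟩ := hKc.exists_isMaxOn hne (continuousOn_S.mono hK)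
    have hc := S_lt (hK hx)
    set c := S x
    have hsub : {z : Cn 3 | z ∈ Dom ∧ ∀ f : Cn 3 → ℂ, DifferentiableOn ℂ f Dom →
        ∀ M : ℝ, (∀ w ∈ K, ‖f w‖ ≤ M) → ‖f z‖ ≤ M}
        = {z : Cn 3 | ∀ k, ‖g k z‖ ≤ c} ∩ ⋂ (f : Cn 3 → ℂ), ⋂ (_ : DifferentiableOn ℂ f Dom),
          ⋂ (M : ℝ), ⋂ (_ : ∀ w ∈ K, ‖f w‖ ≤ M), {z | (∀ k, ‖g k z‖ ≤ c) ∧ ‖f z‖ ≤ M} := by
      ext z
      simp only [mem_inter_iff, mem_iInter, Set.mem_ofPred_eq]
      constructor
      · rintro ⟨hz, h⟩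
        have h1 : ∀ k, ‖g k z‖ ≤ c := fun k =>
          h (g k) (diff_g' k).differentiableOn c fun w hw => (le_S (hK hw) k).trans (hmax hw)
        exact ⟨h1, fun f hf M hM => ⟨h1, h f hf M hM⟩⟩
      · rintro ⟨h1, h⟩
        exact ⟨fun k => (h1 k).trans_lt hc, fun f hf M hM => (h f hf M hM).2⟩
    rw [hsub]
    refine (isCompact_S hc).inter_right ?_
    refine isClosed_iInter fun f => isClosed_iInter fun hf => isClosed_iInter fun M =>
      isClosed_iInter fun _ => ?_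
    have hF : IsClosed {z : Cn 3 | ∀ k, ‖g k z‖ ≤ c} := (isCompact_S hc).isClosed
    have hcont : ContinuousOn (fun z => ‖f z‖) {z : Cn 3 | ∀ k, ‖g k z‖ ≤ c} :=
      (hf.continuousOn.mono fun z hz k => (hz k).trans_lt hc).norm
    exact hcont.preimage_isClosed_of_isClosed hF isClosed_Iic

end Pool.Agent.Q7.KR
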