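import Pool.Agent.Q7.KR.Dom

/-! The estimate of the Kobayashi distance. -/

open Complex Metric Set Filter Topology

namespace Pool.Agent.Q7.KR

/-- The points `(1, e^{1/k}, e^{-1/k² - δ})`. -/
noncomputable def pt (k : ℕ) (δ : ℝ) : Cn 3 :=
  WithLp.toLp 2 ![1, (Real.exp (1 / k) : ℂ), (Real.exp (-(1 / (k : ℝ) ^ 2) - δ) : ℂ)]

/-- The points `(0, e^{1/k}, e^{-1/k² - δ})`. -/
noncomputable def pt0 (k : ℕ) (δ : ℝ) : Cn 3 :=
  WithLp.toLp 2 ![0, (Real.exp (1 / k) : ℂ), (Real.exp (-(1 / (k : ℝ) ^ 2) - δ) : ℂ)]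

/-- The first coordinate vector. -/
noncomputable def e0 : Cn 3 := WithLp.toLp 2 ![1, 0, 0]

@[simp] lemma pt_0 (k : ℕ) (δ : ℝ) : pt k δ 0 = 1 := rfl
@[simp] lemma pt_1 (k : ℕ) (δ : ℝ) : pt k δ 1 = (Real.exp (1 / k) : ℂ) := rfl
@[simp] lemma pt_2 (k : ℕ) (δ : ℝ) : pt k δ 2 = (Real.exp (-(1 / (k : ℝ) ^ 2) - δ) : ℂ) := rfl
@[simp] lemma pt0_0 (k : ℕ) (δ : ℝ) : pt0 k δ 0 = 0 := rfl
@[simp] lemma pt0_1 (k : ℕ) (δ : ℝ) : pt0 k δ 1 = (Real.exp (1 / k) : ℂ) := rfl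
@[simp] lemma pt0_2 (k : ℕ) (δ : ℝ) : pt0 k δ 2 = (Real.exp (-(1 / (k : ℝ) ^ 2) - δ) : ℂ) := rfl
@[simp] lemma e0_0 : e0 0 = 1 := rfl
@[simp] lemma e0_1 : e0 1 = 0 := rfl
@[simp] lemma e0_2 : e0 2 = 0 := rfl

/-- Integers: `j (j - k)² ≥ k / 2` for `j ≠ k`. -/
lemma int_ineq {j k : ℕ} (hj : 1 ≤ j) (hk : 2 ≤ k) (hjk : j ≠ k) :
    (k : ℝ) / 2 ≤ (j : ℝ) * ((j : ℝ) - k) ^ 2 := by
  have hj' : (1 : ℝ) ≤ j := by exact_mod_cast hj
  have hk' : (2 : ℝ) ≤ k := by exact_mod_cast hk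
  rcases lt_or_gt_of_ne hjk with h | h
  · have h1 : (j : ℝ) + 1 ≤ k := by exact_mod_cast h
    -- with b = k - j ≥ 1, a = j ≥ 1, a b² ≥ a b ≥ a + b - 1 = k - 1 ≥ k / 2
    set b : ℝ := (k : ℝ) - j with hb
    have hb1 : 1 ≤ b := by linarith
    have e : ((j : ℝ) - k) ^ 2 = b ^ 2 := by rw [hb]; ring
    rw [e]
    have h2 : b ≤ b ^ 2 := by nlinarith
    have h3 : (j : ℝ) * b ≤ (j : ℝ) * b ^ 2 := mul_le_mul_of_nonneg_left h2 (by linarith)
    nlinarith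
  · have h1 : (k : ℝ) + 1 ≤ j := by exact_mod_cast h
    have h2 : 1 ≤ ((j : ℝ) - k) ^ 2 := by nlinarith
    have h3 : (j : ℝ) * 1 ≤ (j : ℝ) * ((j : ℝ) - k) ^ 2 :=
      mul_le_mul_of_nonneg_left h2 (by linarith)
    linarith

/-- The exponent inequality. -/
lemma exp_ineq {j k : ℕ} (hj : 1 ≤ j) (hk : 2 ≤ k) {δ ρ : ℝ} (hδ : 0 ≤ δ)
    (h1 : ρ ≤ 1 / (2 * k)) (h2 : ρ ≤ (k : ℝ) ^ 3 * δ) :
    -(j : ℝ) + ρ + 1 / k * (2 * (j : ℝ) ^ 2) + (-(1 / (k : ℝ) ^ 2) - δ) * (j : ℝ) ^ 3 ≤ 0 := by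
  have hk0 : (0 : ℝ) < k := by positivity
  have e : -(j : ℝ) + ρ + 1 / k * (2 * (j : ℝ) ^ 2) + (-(1 / (k : ℝ) ^ 2) - δ) * (j : ℝ) ^ 3
      = ρ - (j : ℝ) * ((j : ℝ) - k) ^ 2 / (k : ℝ) ^ 2 - δ * (j : ℝ) ^ 3 := by
    field_simp; ring
  rw [e]
  by_cases hjk : j = k
  · subst hjk
    rw [sub_self]
    have : ρ ≤ δ * (j : ℝ) ^ 3 := by linarith
    simp only [ne_eq, OfNat.ofNat_ne_zero, not_false_eq_true, zero_pow, mul_zero, zero_div,
      sub_zero]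
    linarith
  · have h3 := int_ineq hj hk hjk
    have h4 : 1 / (2 * (k : ℝ)) ≤ (j : ℝ) * ((j : ℝ) - k) ^ 2 / (k : ℝ) ^ 2 := by
      rw [div_le_div_iff₀ (by positivity) (by positivity)]
      nlinarith
    have h5 : 0 ≤ δ * (j : ℝ) ^ 3 := by positivity
    linarith

/-- The disc parallel to the first axis. -/
lemma disc_mem {k : ℕ} (hk : 2 ≤ k) {δ ρ : ℝ} (hδ : 0 < δ) (h1 : ρ ≤ 1 / (2 * k))
    (h2 : ρ ≤ (k : ℝ) ^ 3 * δ) {l : ℂ} (hl : ‖l‖ < 1) :
    pt0 k δ + (l * Real.exp ρ) • e0 ∈ Dom := by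
  have hk2 : (2 : ℝ) ≤ k := by exact_mod_cast hk
  have hk0 : (0 : ℝ) < k := by linarith
  have hi : 1 / (k : ℝ) ≤ 1 / 2 := one_div_le_one_div_of_le (by norm_num) hk2
  have hρ : ρ ≤ 1 := by
    have : 1 / (2 * (k : ℝ)) ≤ 1 := by rw [div_le_one (by linarith)]; linarith
    linarith
  have e1 : Real.exp 1 < 2.7182818286 := Real.exp_one_lt_d9
  set z := pt0 k δ + (l * Real.exp ρ) • e0 with hz
  have z0 : ‖z 0‖ = ‖l‖ * Real.exp ρ := by
    rw [hz, PiLp.add_apply, PiLp.smul_apply]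
    simp
  have z1 : ‖z 1‖ = Real.exp (1 / k) := by
    rw [hz, PiLp.add_apply, PiLp.smul_apply, e0_1, smul_zero, add_zero, pt0_1, Complex.norm_real,
      Real.norm_eq_abs, abs_of_pos (Real.exp_pos _)]
  have z2 : ‖z 2‖ = Real.exp (-(1 / (k : ℝ) ^ 2) - δ) := by
    rw [hz, PiLp.add_apply, PiLp.smul_apply, e0_2, smul_zero, add_zero, pt0_2, Complex.norm_real,
      Real.norm_eq_abs, abs_of_pos (Real.exp_pos _)]
  have hz0 : ‖z 0‖ < Real.exp ρ := by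
    rw [z0]
    nlinarith [Real.exp_pos ρ]
  intro j
  rcases j with _ | _ | _ | j
  · simp only [g, norm_mul]
    have : Real.exp ρ ≤ Real.exp 1 := Real.exp_le_exp.2 hρ
    norm_num
    linarith
  · simp only [g, norm_mul]
    have : Real.exp (1 / (k : ℝ)) ≤ Real.exp 1 := Real.exp_le_exp.2 (by linarith)
    norm_num
    rw [z1]
    linarith
  · simp only [g]
    show ‖z 2‖ < 1
    rw [z2]
    apply Real.exp_lt_one_iff.2
    have : 0 < 1 / (k : ℝ) ^ 2 := by positivity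
    linarith
  · rw [norm_g_succ, z1, z2, ← Real.exp_nat_mul, ← Real.exp_nat_mul]
    have h3 := exp_ineq (j := j + 1) (by omega) hk hδ.le h1 h2
    push_cast at h3 ⊢
    have h4 : Real.exp (-((j : ℝ) + 1)) * Real.exp ρ * Real.exp (2 * ((j : ℝ) + 1) ^ 2 * (1 / k))
        * Real.exp (((j : ℝ) + 1) ^ 3 * (-(1 / (k : ℝ) ^ 2) - δ)) ≤ 1 := by
      rw [← Real.exp_add, ← Real.exp_add, ← Real.exp_add]
      apply Real.exp_le_one_iff.2
      linarith
    refine lt_of_lt_of_le ?_ h4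
    gcongr

lemma disc_end (k : ℕ) (δ ρ : ℝ) : pt0 k δ + (((Real.exp (-ρ) : ℝ) : ℂ) * Real.exp ρ) • e0 = pt k δ := by
  have h : ((Real.exp (-ρ) : ℝ) : ℂ) * Real.exp ρ = 1 := by
    rw [← Complex.ofReal_mul, ← Real.exp_add, neg_add_cancel, Real.exp_zero, Complex.ofReal_one]
  rw [h, one_smul]
  ext i
  fin_cases i <;> simp [pt, pt0, e0]

lemma pt_mem {k : ℕ} (hk : 2 ≤ k) {δ : ℝ} (hδ : 0 < δ) : pt k δ ∈ Dom := by
  have hk0 : (0 : ℝ) < k := by positivity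
  set ρ : ℝ := min (1 / (2 * (k : ℝ))) ((k : ℝ) ^ 3 * δ) with hρ
  have hρ0 : 0 < ρ := lt_min (by positivity) (by positivity)
  rw [← disc_end k δ ρ]
  refine disc_mem hk hδ (min_le_left _ _) (min_le_right _ _) ?_
  rw [Complex.norm_real, Real.norm_eq_abs, abs_of_pos (Real.exp_pos _)]
  exact Real.exp_lt_one_iff.2 (by linarith)

lemma pt_not_mem {k : ℕ} (hk : 2 ≤ k) : pt k 0 ∉ Dom := by
  intro h
  have h1 := h (k - 1 + 3)
  obtain ⟨m, rfl⟩ : ∃ m, k = m + 1 := ⟨k - 1, by omega⟩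
  rw [show m + 1 - 1 + 3 = m + 3 by omega, norm_g_succ, pt_0, pt_1, pt_2, norm_one,
    Complex.norm_real, Complex.norm_real, Real.norm_eq_abs, Real.norm_eq_abs,
    abs_of_pos (Real.exp_pos _), abs_of_pos (Real.exp_pos _), ← Real.exp_nat_mul,
    ← Real.exp_nat_mul, mul_one, ← Real.exp_add, ← Real.exp_add, Real.exp_lt_one_iff] at h1
  push_cast at h1
  have hm : ((m : ℝ) + 1) ≠ 0 := by positivity
  have : -((m : ℝ) + 1) + 2 * ((m : ℝ) + 1) ^ 2 * (1 / ((m : ℝ) + 1))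
      + ((m : ℝ) + 1) ^ 3 * (-(1 / ((m : ℝ) + 1) ^ 2) - 0) = 0 := by
    field_simp; ring
  linarith

lemma dist_pt (k : ℕ) {δ : ℝ} (hδ : 0 ≤ δ) : dist (pt k δ) (pt k 0) ≤ δ := by
  rw [EuclideanSpace.dist_eq, Fin.sum_univ_three, pt_0, pt_0, pt_1, pt_1, pt_2, pt_2, dist_self,
    dist_self]
  have h : (0 : ℝ) ^ 2 + 0 ^ 2 + dist ((Real.exp (-(1 / (k : ℝ) ^ 2) - δ) : ℂ))
      ((Real.exp (-(1 / (k : ℝ) ^ 2) - 0) : ℂ)) ^ 2 = dist ((Real.exp (-(1 / (k : ℝ) ^ 2) - δ) : ℂ))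
      ((Real.exp (-(1 / (k : ℝ) ^ 2) - 0) : ℂ)) ^ 2 := by ring
  rw [h, Real.sqrt_sq dist_nonneg, Complex.dist_eq, ← Complex.ofReal_sub, Complex.norm_real,
    Real.norm_eq_abs, sub_zero]
  have h1 : Real.exp (-(1 / (k : ℝ) ^ 2) - δ) ≤ Real.exp (-(1 / (k : ℝ) ^ 2)) :=
    Real.exp_le_exp.2 (by linarith)
  rw [abs_sub_comm, abs_of_nonneg (by linarith)]
  have h2 : Real.exp (-(1 / (k : ℝ) ^ 2) - δ) = Real.exp (-(1 / (k : ℝ) ^ 2)) * Real.exp (-δ) := by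
    rw [← Real.exp_add]; ring_nf
  have h3 : Real.exp (-(1 / (k : ℝ) ^ 2)) ≤ 1 := Real.exp_le_one_iff.2 (by
    have : 0 ≤ 1 / (k : ℝ) ^ 2 := by positivity
    linarith)
  have h4 : 1 - δ ≤ Real.exp (-δ) := by have := Real.add_one_le_exp (-δ); linarith
  have h5 : Real.exp (-δ) ≤ 1 := Real.exp_le_one_iff.2 (by linarith)
  rw [h2]
  nlinarith [Real.exp_pos (-(1 / (k : ℝ) ^ 2))]

lemma pt_frontier {k : ℕ} (hk : 2 ≤ k) : pt k 0 ∈ frontier Dom := by
  rw [frontier, isOpen_dom.interior_eq]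
  refine ⟨?_, pt_not_mem hk⟩
  rw [Metric.mem_closure_iff]
  intro ε hε
  refine ⟨pt k (ε / 2), pt_mem hk (half_pos hε), ?_⟩
  rw [dist_comm]
  exact (dist_pt k (half_pos hε).le).trans_lt (half_lt_self hε)

lemma infDist_le {k : ℕ} (hk : 2 ≤ k) {δ : ℝ} (hδ : 0 < δ) :
    infDist (pt k δ) (frontier Dom) ≤ δ :=
  (infDist_le_dist_of_mem (pt_frontier hk)).trans (dist_pt k hδ.le)

lemma infDist_pos {k : ℕ} (hk : 2 ≤ k) {δ : ℝ} (hδ : 0 < δ) :
    0 < infDist (pt k δ) (frontier Dom) := by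
  rw [← isClosed_frontier.notMem_iff_infDist_pos ⟨_, pt_frontier hk⟩]
  intro h
  rw [frontier, isOpen_dom.interior_eq] at h
  exact h.2 (pt_mem hk hδ)

/-! ### The Kobayashi distance -/

lemma poincare_nonneg {z w : ℂ} (hz : ‖z‖ < 1) (hw : ‖w‖ < 1) : 0 ≤ poincare z w := by
  have h1 : ‖(z - w) / (1 - (starRingEnd ℂ) z * w)‖ < 1 := by
    have hne : 1 - (starRingEnd ℂ) z * w ≠ 0 := by
      intro h
      have h' : (starRingEnd ℂ) z * w = 1 := (sub_eq_zero.1 h).symm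
      have := congrArg norm h'
      rw [norm_mul, Complex.norm_conj, norm_one] at this
      nlinarith [norm_nonneg z, norm_nonneg w]
    rw [norm_div, div_lt_one (norm_pos_iff.2 hne)]
    refine lt_of_pow_lt_pow_left₀ 2 (norm_nonneg _) ?_
    have hz2 : Complex.normSq z < 1 := by
      rw [Complex.normSq_eq_norm_sq]; nlinarith [norm_nonneg z]
    have hw2 : Complex.normSq w < 1 := by
      rw [Complex.normSq_eq_norm_sq]; nlinarith [norm_nonneg w]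
    have e : Complex.normSq (1 - (starRingEnd ℂ) z * w) - Complex.normSq (z - w)
        = (1 - Complex.normSq z) * (1 - Complex.normSq w) := by
      simp only [Complex.normSq_apply, Complex.sub_re, Complex.sub_im, Complex.mul_re,
        Complex.mul_im, Complex.conj_re, Complex.conj_im, Complex.one_re, Complex.one_im]
      ring
    rw [← Complex.normSq_eq_norm_sq, ← Complex.normSq_eq_norm_sq]
    nlinarith [mul_pos (sub_pos.2 hz2) (sub_pos.2 hw2)]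
  rw [poincare]
  apply mul_nonneg (by norm_num)
  apply Real.log_nonneg
  rw [le_div_iff₀ (by linarith)]
  linarith [norm_nonneg ((z - w) / (1 - (starRingEnd ℂ) z * w))]

lemma chain_nonneg {n : ℕ} {D : Set (Cn n)} {z w : Cn n} {s : ℝ} (h : Chain D z w s) : 0 ≤ s := by
  induction h with
  | refl => exact le_rfl
  | step f a b w s hf hD ha hb h ih =>
    have := poincare_nonneg (mem_ball_zero_iff.1 ha) (mem_ball_zero_iff.1 hb)
    linarith

lemma kobayashi_le {n : ℕ} {D : Set (Cn n)} {z w : Cn n} {s : ℝ} (h : Chain D z w s) :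
    kobayashi D z w ≤ s :=
  csInf_le ⟨0, fun _ h => chain_nonneg h⟩ h

lemma poincare_zero {x : ℝ} (hx : 0 < x) (hx1 : x ≤ 1) :
    poincare 0 ((Real.exp (-x) : ℝ) : ℂ) ≤ 1 / 2 * Real.log (4 / x) := by
  have h0 : ‖((0 : ℂ) - ((Real.exp (-x) : ℝ) : ℂ)) / (1 - (starRingEnd ℂ) 0 *
      ((Real.exp (-x) : ℝ) : ℂ))‖ = Real.exp (-x) := by
    rw [map_zero, zero_mul, sub_zero, div_one, zero_sub, norm_neg, Complex.norm_real,
      Real.norm_eq_abs, abs_of_pos (Real.exp_pos _)]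
  rw [poincare, h0]
  have h1 : Real.exp (-x) ≤ 1 / (1 + x) := by
    rw [Real.exp_neg, ← one_div]
    exact one_div_le_one_div_of_le (by linarith) (by have := Real.add_one_le_exp x; linarith)
  have h2 : x / 2 ≤ 1 - Real.exp (-x) := by
    have h3 : x / 2 ≤ 1 - 1 / (1 + x) := by
      have : 1 - 1 / (1 + x) = x / (1 + x) := by field_simp; ring
      rw [this]
      exact div_le_div_of_nonneg_left hx.le (by linarith) (by linarith)
    linarith
  have h4 : (1 + Real.exp (-x)) / (1 - Real.exp (-x)) ≤ 4 / x := by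
    rw [div_le_div_iff₀ (by linarith) hx]
    have : Real.exp (-x) ≤ 1 := Real.exp_le_one_iff.2 (by linarith)
    nlinarith
  have h5 : 0 < (1 + Real.exp (-x)) / (1 - Real.exp (-x)) :=
    div_pos (by linarith [Real.exp_pos (-x)]) (by linarith)
  have := Real.log_le_log h5 h4
  linarith

/-- The upper bound for the Kobayashi distance. -/
lemma kob_le {z₀ : Cn 3} (hz₀ : z₀ ∈ Dom) : ∃ C : ℝ, ∀ k : ℕ, 2 ≤ k → ∀ δ : ℝ, 0 < δ → δ ≤ 1 / 2 →
    (k : ℝ) ^ 3 * δ ≤ 1 / (2 * k) → kobayashi Dom z₀ (pt k δ) ≤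
      C + (1 / 2 * Real.log (4 * (k : ℝ) ^ 2) + 1 / 2 * Real.log (4 / ((k : ℝ) ^ 3 * δ))) := by
  -- the disc from `z₀` to `0`
  obtain ⟨t, ht1, ht⟩ : ∃ t : ℝ, 1 < t ∧ ((t : ℂ) • z₀ : Cn 3) ∈ Dom := by
    have hc : Continuous fun t : ℝ => ((t : ℂ) • z₀ : Cn 3) := by fun_prop
    have h1 : ∀ᶠ t : ℝ in 𝓝 1, ((t : ℂ) • z₀ : Cn 3) ∈ Dom := by
      apply hc.continuousAt.eventually
      apply isOpen_dom.mem_nhds
      simpa using hz₀
    obtain ⟨t, ht⟩ := ((h1.filter_mono nhdsWithin_le_nhds).and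
      (self_mem_nhdsWithin : Ioi (1 : ℝ) ∈ 𝓝[>] 1)).exists
    exact ⟨t, ht.2, ht.1⟩
  have ht0 : (0 : ℝ) < t := by linarith
  refine ⟨poincare ((t : ℂ)⁻¹) 0, fun k hk δ hδ hδ2 hkδ => ?_⟩
  have hk2 : (2 : ℝ) ≤ k := by exact_mod_cast hk
  have hk0 : (0 : ℝ) < k := by linarith
  set ρ : ℝ := (k : ℝ) ^ 3 * δ with hρ
  have hρ0 : 0 < ρ := by positivity
  have hρ1 : ρ ≤ 1 := by
    have : 1 / (2 * (k : ℝ)) ≤ 1 := by rw [div_le_one (by linarith)]; linarith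
    linarith
  set x : ℝ := 1 / (k : ℝ) ^ 2 + δ with hx
  have hx0 : 0 < x := by positivity
  have hxk : 1 / (k : ℝ) ^ 2 ≤ 1 / 4 := one_div_le_one_div_of_le (by norm_num) (by nlinarith)
  have hx1 : x ≤ 1 := by linarith
  have hxe : Real.exp (-(1 / (k : ℝ) ^ 2) - δ) = Real.exp (-x) := by rw [hx]; congr 1; ring
  -- the discs
  set f : ℂ → Cn 3 := fun l => pt0 k δ + (l * Real.exp ρ) • e0 with hf
  set v : Cn 3 := WithLp.toLp 2 ![0, (Real.exp (1 / k + x) : ℂ), 1] with hv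
  set G : ℂ → Cn 3 := fun l => l • v with hG
  set H : ℂ → Cn 3 := fun l => (l * t) • z₀ with hH
  have df : DifferentiableOn ℂ f (ball 0 1) := by
    have : Differentiable ℂ f := by
      rw [hf]
      exact (differentiable_const _).add
        ((differentiable_id.mul_const _).smul_const _)
    exact this.differentiableOn
  have dG : DifferentiableOn ℂ G (ball 0 1) :=
    (differentiable_id.smul_const _).differentiableOn
  have dH : DifferentiableOn ℂ H (ball 0 1) :=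
    ((differentiable_id.mul_const _).smul_const _).differentiableOn
  have mf : MapsTo f (ball 0 1) Dom := fun l hl =>
    disc_mem hk hδ hkδ le_rfl (mem_ball_zero_iff.1 hl)
  have mG : MapsTo G (ball 0 1) Dom := by
    intro l hl
    have hl' := mem_ball_zero_iff.1 hl
    have e0' : G l 0 = 0 := by simp [hG, hv]
    have e1' : ‖G l 1‖ = ‖l‖ * Real.exp (1 / k + x) := by
      rw [hG]; simp only [PiLp.smul_apply, smul_eq_mul, norm_mul]
      congr 1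
      show ‖((Real.exp (1 / k + x) : ℝ) : ℂ)‖ = _
      rw [Complex.norm_real, Real.norm_eq_abs, abs_of_pos (Real.exp_pos _)]
    have e2' : ‖G l 2‖ = ‖l‖ := by simp [hG, hv]
    have hexp : Real.exp (1 / k + x) < 16 := by
      have h1 : 1 / (k : ℝ) ≤ 1 / 2 := one_div_le_one_div_of_le (by norm_num) hk2
      have h2 : Real.exp (1 / k + x) ≤ Real.exp (1 + 1) := Real.exp_le_exp.2 (by linarith)
      have h3 : Real.exp (1 + 1) = Real.exp 1 * Real.exp 1 := Real.exp_add 1 1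
      rw [h3] at h2
      have := Real.exp_one_lt_d9
      nlinarith [Real.exp_pos 1]
    intro j
    rcases j with _ | _ | _ | j
    · simp [g, e0']
    · have hn : ‖(1 / 16 : ℂ)‖ = 1 / 16 := by norm_num
      have h3 : ‖l‖ * Real.exp (1 / k + x) < 16 := by
        nlinarith [norm_nonneg l, Real.exp_pos (1 / (k : ℝ) + x)]
      show ‖(1 / 16 : ℂ) * G l 1‖ < 1
      rw [norm_mul, hn, e1']
      linarith
    · show ‖G l 2‖ < 1
      rw [e2']; exact hl'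
    · rw [norm_g_succ, e0']; simp
  have mH : MapsTo H (ball 0 1) Dom := by
    intro l hl
    have hl' := mem_ball_zero_iff.1 hl
    refine dom_mono (fun i => ?_) ht
    rw [hH]
    simp only [PiLp.smul_apply, smul_eq_mul, norm_mul]
    rw [mul_assoc]
    exact mul_le_of_le_one_left (by positivity) hl'.le
  -- the chain
  have c1 : Chain Dom (pt k δ) (pt k δ) 0 := Chain.refl _ (pt_mem hk hδ)
  have b1 : ((Real.exp (-ρ) : ℝ) : ℂ) ∈ ball (0 : ℂ) 1 := by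
    rw [mem_ball_zero_iff, Complex.norm_real, Real.norm_eq_abs, abs_of_pos (Real.exp_pos _)]
    exact Real.exp_lt_one_iff.2 (by linarith)
  have b2 : ((Real.exp (-x) : ℝ) : ℂ) ∈ ball (0 : ℂ) 1 := by
    rw [mem_ball_zero_iff, Complex.norm_real, Real.norm_eq_abs, abs_of_pos (Real.exp_pos _)]
    exact Real.exp_lt_one_iff.2 (by linarith)
  have b0 : (0 : ℂ) ∈ ball (0 : ℂ) 1 := by simp
  have b3 : ((t : ℂ)⁻¹) ∈ ball (0 : ℂ) 1 := by
    rw [mem_ball_zero_iff, norm_inv, Complex.norm_real, Real.norm_eq_abs, abs_of_pos ht0]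
    exact inv_lt_one_of_one_lt₀ ht1
  have f1 : f ((Real.exp (-ρ) : ℝ) : ℂ) = pt k δ := disc_end k δ ρ
  have c2 : Chain Dom (f 0) (pt k δ) (poincare 0 ((Real.exp (-ρ) : ℝ) : ℂ) + 0) :=
    Chain.step f 0 _ _ _ df mf b0 b1 (by rw [f1]; exact c1)
  have f0 : f 0 = G ((Real.exp (-x) : ℝ) : ℂ) := by
    have h1 : f 0 = pt0 k δ := by rw [hf]; simp
    rw [h1, hG, hv]
    ext i
    fin_cases i
    · simp [pt0]
    · show ((Real.exp (1 / k) : ℝ) : ℂ) = ((Real.exp (-x) : ℝ) : ℂ) * ((Real.exp (1 / k + x) : ℝ) : ℂ)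
      rw [← Complex.ofReal_mul, ← Real.exp_add]; congr 2; ring
    · show ((Real.exp (-(1 / (k : ℝ) ^ 2) - δ) : ℝ) : ℂ) = ((Real.exp (-x) : ℝ) : ℂ) * 1
      rw [hxe, mul_one]
  rw [f0] at c2
  have c3 : Chain Dom (G 0) (pt k δ) (poincare 0 ((Real.exp (-x) : ℝ) : ℂ)
      + (poincare 0 ((Real.exp (-ρ) : ℝ) : ℂ) + 0)) :=
    Chain.step G 0 _ _ _ dG mG b0 b2 c2
  have g0 : G 0 = H 0 := by rw [hG, hH]; simp
  rw [g0] at c3
  have c4 := Chain.step H ((t : ℂ)⁻¹) 0 _ _ dH mH b3 b0 c3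
  have h0 : H ((t : ℂ)⁻¹) = z₀ := by
    rw [hH]
    show ((t : ℂ)⁻¹ * t) • z₀ = z₀
    rw [inv_mul_cancel₀ (by exact_mod_cast ht0.ne'), one_smul]
  rw [h0] at c4
  have h1 := kobayashi_le c4
  have h2 := poincare_zero hρ0 hρ1
  have h3 := poincare_zero hx0 hx1
  have h4 : Real.log (4 / x) ≤ Real.log (4 * (k : ℝ) ^ 2) := by
    apply Real.log_le_log (by positivity)
    rw [div_le_iff₀ hx0]
    have h5 : 1 ≤ (k : ℝ) ^ 2 * x := by
      rw [hx, mul_add, mul_one_div_cancel (by positivity)]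
      have : 0 ≤ (k : ℝ) ^ 2 * δ := by positivity
      linarith
    linarith
  linarith

/-- The points `z_m = (1, e^{1/k}, e^{-1/k² - 1/(2k⁴)})`, `k = m + 2`. -/
noncomputable def zs (m : ℕ) : Cn 3 := pt (m + 2) (1 / (2 * ((m + 2 : ℕ) : ℝ) ^ 4))

lemma zs_mem (m : ℕ) : zs m ∈ Dom := pt_mem (by omega) (by positivity)

lemma zs_tendsto : Tendsto zs atTop (𝓝 (WithLp.toLp 2 ![1, 1, 1])) := by
  have hc : Continuous fun p : ℂ × ℂ × ℂ => (WithLp.toLp 2 ![p.1, p.2.1, p.2.2] : Cn 3) := by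
    apply (PiLp.continuous_toLp 2 _).comp
    refine continuous_pi fun i => ?_
    fin_cases i
    · exact continuous_fst
    · exact continuous_fst.comp continuous_snd
    · exact continuous_snd.comp continuous_snd
  have hk : Tendsto (fun m : ℕ => (((m + 2 : ℕ) : ℝ))⁻¹) atTop (𝓝 0) :=
    (tendsto_inv_atTop_zero.comp (tendsto_natCast_atTop_atTop.comp (tendsto_add_atTop_nat 2)))
  have h1 : Tendsto (fun m : ℕ => ((Real.exp (1 / ((m + 2 : ℕ) : ℝ)) : ℝ) : ℂ)) atTop (𝓝 1) := by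
    have h0 : Tendsto (fun m : ℕ => 1 / ((m + 2 : ℕ) : ℝ)) atTop (𝓝 0) := by
      simpa only [one_div] using hk
    have h := (Complex.continuous_ofReal.tendsto _).comp ((Real.continuous_exp.tendsto 0).comp h0)
    rw [Real.exp_zero, Complex.ofReal_one] at h
    exact h
  have h2 : Tendsto (fun m : ℕ => ((Real.exp (-(1 / ((m + 2 : ℕ) : ℝ) ^ 2)
      - 1 / (2 * ((m + 2 : ℕ) : ℝ) ^ 4)) : ℝ) : ℂ)) atTop (𝓝 1) := by
    have h0 : Tendsto (fun m : ℕ => -(1 / ((m + 2 : ℕ) : ℝ) ^ 2)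
        - 1 / (2 * ((m + 2 : ℕ) : ℝ) ^ 4)) atTop (𝓝 0) := by
      have h := ((hk.pow 2).neg).sub ((hk.pow 4).const_mul (1 / 2 : ℝ))
      have e : (-(0 : ℝ) ^ 2 - 1 / 2 * 0 ^ 4) = 0 := by norm_num
      rw [e] at h
      refine h.congr fun m => ?_
      field_simp
    have h := (Complex.continuous_ofReal.tendsto _).comp ((Real.continuous_exp.tendsto 0).comp h0)
    rw [Real.exp_zero, Complex.ofReal_one] at h
    exact h
  have h3 := (hc.tendsto (1, 1, 1)).comp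
    ((tendsto_const_nhds (x := (1 : ℂ)) (f := (atTop : Filter ℕ))).prodMk_nhds
      (h1.prodMk_nhds h2))
  exact h3

lemma main_tendsto {z₀ : Cn 3} (hz₀ : z₀ ∈ Dom) :
    Tendsto (fun m => kobayashi Dom z₀ (zs m) + 1 / 2 * Real.log (infDist (zs m) (frontier Dom)))
      atTop atBot := by
  obtain ⟨C, hC⟩ := kob_le hz₀
  have h1 : ∀ m : ℕ, kobayashi Dom z₀ (zs m) + 1 / 2 * Real.log (infDist (zs m) (frontier Dom))
      ≤ C + 1 / 2 * Real.log 16 - 1 / 2 * Real.log ((m + 2 : ℕ) : ℝ) := by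
    intro m
    set k : ℕ := m + 2 with hk
    have hk2 : 2 ≤ k := by omega
    have hk2' : (2 : ℝ) ≤ k := by exact_mod_cast hk2
    have hk0 : (0 : ℝ) < k := by linarith
    set δ : ℝ := 1 / (2 * (k : ℝ) ^ 4) with hδ
    have hδ0 : 0 < δ := by positivity
    have hδ2 : δ ≤ 1 / 2 := by
      rw [hδ]
      apply one_div_le_one_div_of_le (by norm_num)
      have : (1 : ℝ) ≤ (k : ℝ) ^ 4 := one_le_pow₀ (by linarith)
      linarith
    have hkδ : (k : ℝ) ^ 3 * δ = 1 / (2 * k) := by rw [hδ]; field_simp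
    have h2 := hC k hk2 δ hδ0 hδ2 hkδ.le
    have h3 : Real.log (infDist (pt k δ) (frontier Dom)) ≤ Real.log δ :=
      Real.log_le_log (infDist_pos hk2 hδ0) (infDist_le hk2 hδ0)
    have h4 : Real.log (4 * (k : ℝ) ^ 2) + Real.log (4 / ((k : ℝ) ^ 3 * δ)) + Real.log δ
        = Real.log 16 - Real.log k := by
      rw [← Real.log_mul (by positivity) (by positivity),
        ← Real.log_mul (by positivity) (by positivity), ← Real.log_div (by norm_num) hk0.ne']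
      congr 1
      field_simp
      ring
    show kobayashi Dom z₀ (pt k δ) + 1 / 2 * Real.log (infDist (pt k δ) (frontier Dom)) ≤ _
    linarith
  refine tendsto_atBot_mono h1 ?_
  have h5 : Tendsto (fun m : ℕ => 1 / 2 * Real.log ((m + 2 : ℕ) : ℝ)) atTop atTop :=
    (Real.tendsto_log_atTop.comp (tendsto_natCast_atTop_atTop.comp
      (tendsto_add_atTop_nat 2))).const_mul_atTop (by norm_num)
  simp only [sub_eq_add_neg]
  exact tendsto_atBot_add_const_left _ _ (tendsto_neg_atTop_atBot.comp h5)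

lemma zeta_frontier : (WithLp.toLp 2 ![1, 1, 1] : Cn 3) ∈ frontier Dom := by
  rw [frontier, isOpen_dom.interior_eq]
  refine ⟨mem_closure_of_tendsto zs_tendsto (Eventually.of_forall zs_mem), fun h => ?_⟩
  have := (dom_bounds h).2.2
  have e : (WithLp.toLp 2 ![1, 1, 1] : Cn 3) 2 = 1 := rfl
  rw [e, norm_one] at this
  exact lt_irrefl _ this

end Pool.Agent.Q7.KR
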